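import Mathlib

namespace Pool.Agent.Results.MP_77ccbb_an.EqualRadius

open Set Filter Metric

/-- The quadratic polynomial `z ^ 2 + c`. -/
def quad (c z : ℂ) : ℂ := z ^ 2 + c

/-- The Mandelbrot set. -/
def mandel : Set ℂ := {c | ¬ Tendsto (fun n => ‖(quad c)^[n] 0‖) atTop atTop}

/-- The same polynomial on the Riemann sphere, fixing the point at infinity. -/
def quadS (c : ℂ) : OnePoint ℂ → OnePoint ℂ := OnePoint.map (quad c)

/-- The semigroup of all compositions of one or more maps with parameters in the closed disc. -/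
def semi (c : ℂ) (r : ℝ) : Set (OnePoint ℂ → OnePoint ℂ) :=
  {g | ∃ l : List ℂ, l ≠ [] ∧ (∀ a ∈ l, ‖a - c‖ ≤ r) ∧ g = (l.map quadS).foldr (· ∘ ·) id}

/-- Nonempty compact forward invariant subsets of the sphere. -/
def Inv (c : ℂ) (r : ℝ) (L : Set (OnePoint ℂ)) : Prop :=
  L.Nonempty ∧ IsCompact L ∧ ∀ g ∈ semi c r, g '' L ⊆ L

/-- The bifurcation radius. -/
noncomputable def rbif (c : ℂ) : ℝ :=
  sInf {r : ℝ | 0 ≤ r ∧ ¬ ∃ L, Minimal (Inv c r) L ∧ OnePoint.infty ∉ L}

lemma exists_min {c : ℂ} {r : ℝ} {L : Set (OnePoint ℂ)} (h : Inv c r L) :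
    ∃ M, M ⊆ L ∧ Minimal (Inv c r) M := by
  have := zorn_superset_nonempty {M | Inv c r M} ?_ L h
  · simpa using this
  intro C hC hch hne
  refine ⟨⋂₀ C, ⟨?_, ?_, ?_⟩, fun s hs => sInter_subset_of_mem hs⟩
  · have : Nonempty C := hne.to_subtype
    refine IsCompact.nonempty_sInter_of_directed_nonempty_isCompact_isClosed ?_
      (fun U hU => (hC hU).1) (fun U hU => (hC hU).2.1) (fun U hU => (hC hU).2.1.isClosed)
    intro x hx y hy
    rcases hch.total hx hy with h1 | h1
    · exact ⟨x, hx, subset_rfl, h1⟩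
    · exact ⟨y, hy, h1, subset_rfl⟩
  · obtain ⟨U, hU⟩ := hne
    exact (hC hU).2.1.of_isClosed_subset
      (isClosed_sInter fun V hV => (hC hV).2.1.isClosed) (sInter_subset_of_mem hU)
  · rintro g hg _ ⟨x, hx, rfl⟩ U hU
    exact (hC hU).2.2 g hg ⟨x, hx U hU, rfl⟩

/-- The parameter. -/
noncomputable def c0 : ℂ := ⟨117 / 500, -3 / 250⟩

/-- The centre of the invariant disc. -/
noncomputable def a0 : ℂ := ⟨17 / 50, -3 / 25⟩

lemma disc_core (z : ℂ) (hz : ‖z - a0‖ ≤ 1 / 5) : ‖z ^ 2 + c0 - a0‖ ≤ 9 / 50 := by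
  have h1 : ‖z - a0‖ ^ 2 ≤ (1 / 5) ^ 2 := by gcongr
  rw [Complex.sq_norm, Complex.normSq_apply] at h1
  refine abs_le_of_sq_le_sq' ?_ (by norm_num) |>.2
  rw [Complex.sq_norm, Complex.normSq_apply]
  simp only [a0, c0, Complex.sub_re, Complex.sub_im, Complex.add_re, Complex.add_im, pow_two,
    Complex.mul_re, Complex.mul_im] at h1 ⊢
  set X := z.re
  set Y := z.im
  have ht : 0 ≤ 1 / 25 - ((X - 17 / 50) ^ 2 + (Y + 3 / 25) ^ 2) := by nlinarith
  have hX : 0 ≤ X - 1 / 10 := by nlinarith [sq_nonneg (Y + 3 / 25)]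
  have hs : 0 ≤ (1 / 2 - X) ^ 2 + Y ^ 2 := by positivity
  have hs4 : 0 ≤ 4 / 25 - ((1 / 2 - X) ^ 2 + Y ^ 2) := by
    nlinarith [sq_nonneg (X - 9 / 50), sq_nonneg (Y + 6 / 25)]
  nlinarith [mul_nonneg ht hX, mul_nonneg hs hs4,
    sq_nonneg (3 * (2 - 4 * X - 3 * Y) - (3 * X - 4 * Y - 3 / 2))]

lemma disc_inv (z a : ℂ) (hz : ‖z - a0‖ ≤ 1 / 5) (ha : ‖a - c0‖ ≤ 1 / 50) :
    ‖quad a z - a0‖ ≤ 1 / 5 := by
  have h := disc_core z hz
  have : quad a z - a0 = (z ^ 2 + c0 - a0) + (a - c0) := by unfold quad; ring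
  rw [this]
  linarith [norm_add_le (z ^ 2 + c0 - a0) (a - c0)]

lemma quarter : ‖(1 / 4 : ℂ) - c0‖ = 1 / 50 := by
  have h : ‖(1 / 4 : ℂ) - c0‖ ^ 2 = (1 / 50) ^ 2 := by
    rw [Complex.sq_norm, Complex.normSq_apply]
    simp [c0]
    norm_num
  exact (pow_left_inj₀ (norm_nonneg _) (by norm_num) two_ne_zero).1 h

lemma mem_mandel (a : ℂ) (ha : ‖a - c0‖ ≤ 1 / 50) : a ∈ mandel := by
  have h0 : ‖c0 - a0‖ ≤ 9 / 50 := by
    refine abs_le_of_sq_le_sq' ?_ (by norm_num) |>.2
    rw [Complex.sq_norm, Complex.normSq_apply]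
    simp [c0, a0]
    norm_num
  have h1 : ∀ n, ‖(quad a)^[n + 1] 0 - a0‖ ≤ 1 / 5 := by
    intro n
    induction n with
    | zero =>
      have : (quad a)^[0 + 1] 0 - a0 = (a - c0) + (c0 - a0) := by simp [quad]
      rw [this]
      linarith [norm_add_le (a - c0) (c0 - a0)]
    | succ n ih =>
      rw [Function.iterate_succ_apply']
      exact disc_inv _ _ ih ha
  intro ht
  obtain ⟨N, hN⟩ := eventually_atTop.1 (ht.eventually_gt_atTop (1 / 5 + ‖a0‖))
  have h2 := hN (N + 1) (by omega)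
  have h3 := h1 N
  linarith [norm_sub_norm_le ((quad a)^[N + 1] 0) a0]

lemma not_mem_mandel (d : ℝ) (hd : 0 < d) : ((1 / 4 + d : ℝ) : ℂ) ∉ mandel := by
  have h1 : ∀ n : ℕ, ∃ x : ℝ, n * d ≤ x ∧ (quad ((1 / 4 + d : ℝ) : ℂ))^[n] 0 = x := by
    intro n
    induction n with
    | zero => exact ⟨0, by simp, by simp⟩
    | succ n ih =>
      obtain ⟨x, hx, h⟩ := ih
      refine ⟨x ^ 2 + (1 / 4 + d), ?_, ?_⟩
      · push_cast
        nlinarith [sq_nonneg (x - 1 / 2)]
      · rw [Function.iterate_succ_apply', h]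
        simp [quad]
  intro h
  apply h
  refine tendsto_atTop_mono (fun n => ?_) (tendsto_natCast_atTop_atTop.atTop_mul_const hd)
  obtain ⟨x, hx, h⟩ := h1 n
  rw [h, Complex.norm_real]
  exact hx.trans (le_abs_self x)

lemma quarter_frontier : (1 / 4 : ℂ) ∈ frontier mandel := by
  rw [frontier_eq_closure_inter_closure]
  refine ⟨subset_closure (mem_mandel _ quarter.le), ?_⟩
  rw [Metric.mem_closure_iff]
  intro e he
  refine ⟨_, not_mem_mandel (e / 2) (by positivity), ?_⟩
  rw [dist_eq_norm]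
  have : (1 / 4 : ℂ) - ((1 / 4 + e / 2 : ℝ) : ℂ) = ((-(e / 2) : ℝ) : ℂ) := by push_cast; ring
  rw [this, Complex.norm_real, Real.norm_eq_abs, abs_neg, abs_of_pos (by positivity)]
  linarith

lemma far (y : ℂ) (hy : y ∈ frontier mandel) : 1 / 50 ≤ dist c0 y := by
  by_contra h
  push Not at h
  have h1 : ball c0 (1 / 50) ⊆ interior mandel := by
    refine interior_maximal (fun a ha => mem_mandel a ?_) isOpen_ball
    rw [mem_ball, dist_eq_norm] at ha
    exact ha.le
  exact hy.2 (h1 (by rwa [mem_ball, dist_comm]))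

lemma no_bounded (e B : ℝ) (he : 0 < e) (L : Set ℂ) (hne : L.Nonempty)
    (hB : ∀ z ∈ L, ‖z‖ ≤ B) (hL : ∀ z ∈ L, ∀ k : ℂ, ‖k‖ ≤ e → z ^ 2 + 1 / 4 + k ∈ L) : False := by
  have s1 : ∃ z ∈ L, ‖z‖ ≤ 1 / 2 := by
    by_contra hc
    push Not at hc
    have big : ∀ (z : ℂ) (t : ℝ), 0 ≤ t → (∀ y, ‖y - z‖ ≤ t → y ∈ L) → t + 1 / 2 < ‖z‖ := by
      intro z t ht h
      by_contra hz
      push Not at hz
      have hp : 0 < t + 1 / 2 := by positivity
      have h1 := hc (((1 / 2) / (t + 1 / 2) : ℝ) • z) (h _ (by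
        have : ((1 / 2) / (t + 1 / 2) : ℝ) • z - z = (-(t / (t + 1 / 2)) : ℝ) • z := by
          nth_rewrite 2 [← one_smul ℝ z]
          rw [← sub_smul]
          congr 1
          field_simp
          ring
        rw [this, norm_smul, Real.norm_eq_abs, abs_neg, abs_of_nonneg (by positivity),
          div_mul_eq_mul_div, div_le_iff₀ hp]
        gcongr))
      rw [norm_smul, Real.norm_eq_abs, abs_of_nonneg (by positivity),
          div_mul_eq_mul_div, lt_div_iff₀ hp] at h1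
      linarith
    have ind : ∀ n : ℕ, ∃ z : ℂ, ∀ y, ‖y - z‖ ≤ n * e → y ∈ L := by
      intro n
      induction n with
      | zero =>
        obtain ⟨z, hz⟩ := hne
        refine ⟨z, fun y hy => ?_⟩
        have : y = z := by simpa [sub_eq_zero] using hy
        rwa [this]
      | succ n ih =>
        obtain ⟨z, hz⟩ := ih
        set t : ℝ := n * e with htd
        have ht : 0 ≤ t := by positivity
        have hb := big z t ht hz
        refine ⟨z ^ 2 + 1 / 4, fun v hv => ?_⟩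
        have hv' : ‖v - (z ^ 2 + 1 / 4)‖ ≤ t + e := by
          rw [htd]; push_cast at hv; linarith
        set k := v - (z ^ 2 + 1 / 4) with hk
        have hp : 0 < t + e := by positivity
        have hk1 : ‖(t / (t + e) : ℝ) • k‖ ≤ t := by
          rw [norm_smul, Real.norm_eq_abs, abs_of_nonneg (by positivity),
            div_mul_eq_mul_div, div_le_iff₀ hp]
          gcongr
        have hk2 : ‖(e / (t + e) : ℝ) • k‖ ≤ e := by
          rw [norm_smul, Real.norm_eq_abs, abs_of_nonneg (by positivity),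
            div_mul_eq_mul_div, div_le_iff₀ hp]
          gcongr
        have hsum : (t / (t + e) : ℝ) • k + (e / (t + e) : ℝ) • k = k := by
          rw [← add_smul, ← add_div, div_self hp.ne', one_smul]
        set k1 := (t / (t + e) : ℝ) • k
        set k2 := (e / (t + e) : ℝ) • k
        have hy : ∃ y : ℂ, y ^ 2 = z ^ 2 + k1 ∧ ‖y - z‖ ≤ ‖y + z‖ := by
          obtain ⟨y, hy⟩ := IsAlgClosed.exists_pow_nat_eq (z ^ 2 + k1) two_pos
          rcases le_total ‖y - z‖ ‖y + z‖ with h | h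
          · exact ⟨y, hy, h⟩
          · refine ⟨-y, by rw [neg_sq, hy], ?_⟩
            rw [show -y - z = -(y + z) by ring, show -y + z = -(y - z) by ring, norm_neg, norm_neg]
            exact h
        obtain ⟨y, hy, hAB⟩ := hy
        have hprod : ‖y - z‖ * ‖y + z‖ ≤ t := by
          rw [← norm_mul, show (y - z) * (y + z) = y ^ 2 - z ^ 2 by ring, hy]
          simpa using hk1
        have hs : 2 * ‖z‖ ≤ ‖y - z‖ + ‖y + z‖ := by
          have := norm_sub_le (y + z) (y - z)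
          rw [show y + z - (y - z) = 2 * z by ring, norm_mul] at this
          simp at this
          linarith
        have hA : ‖y - z‖ ≤ t := by
          have hA0 := norm_nonneg (y - z)
          by_cases hB1 : ‖y + z‖ < 1
          · nlinarith [mul_pos (sub_pos.2 hB1) (sub_pos.2 (hAB.trans_lt hB1))]
          · push Not at hB1
            nlinarith
        have := hL y (hz y hA) k2 hk2
        rwa [hy, show z ^ 2 + k1 + 1 / 4 + k2 = z ^ 2 + 1 / 4 + (k1 + k2) by ring, hsum, hk,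
          add_sub_cancel] at this
    obtain ⟨n, hn⟩ := exists_nat_gt (B / e)
    obtain ⟨z, hz⟩ := ind n
    have h1 := big z (n * e) (by positivity) hz
    have h2 := hB z (hz z (by simp; positivity))
    rw [div_lt_iff₀ he] at hn
    linarith
  have s2 : ∀ n : ℕ, ∃ w : ℂ, 1 / 2 + w ∈ L ∧ (n + 1) * (w.re ^ 2 + w.im ^ 2) ≤ -w.re := by
    intro n
    induction n with
    | zero =>
      obtain ⟨z, hz, h⟩ := s1
      refine ⟨z - 1 / 2, by simpa using hz, ?_⟩
      have h1 : ‖z‖ ^ 2 ≤ (1 / 2) ^ 2 := by gcongr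
      rw [Complex.sq_norm, Complex.normSq_apply] at h1
      simp
      nlinarith
    | succ n ih =>
      obtain ⟨w, hw, h⟩ := ih
      refine ⟨w + w ^ 2, ?_, ?_⟩
      · have := hL _ hw 0 (by simpa using he.le)
        rwa [show (1 / 2 + w) ^ 2 + 1 / 4 + 0 = 1 / 2 + (w + w ^ 2) by ring] at this
      · simp only [Complex.add_re, Complex.add_im, pow_two, Complex.mul_re, Complex.mul_im] at h ⊢
        push_cast
        set x := w.re
        set y := w.im
        have hn : (0 : ℝ) ≤ n := by positivity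
        have hs : 0 ≤ x * x + y * y := by nlinarith
        have hN : 0 ≤ (1 + x) ^ 2 + y ^ 2 := by positivity
        have h1 : 0 ≤ -x - (x * x + y * y) := by nlinarith
        have h2 : 0 ≤ -x - (n + 1) * (x * x + y * y) := by linarith
        nlinarith [mul_nonneg h2 hN, mul_nonneg hs h1]
  have s3 : ((1 / 2 + e / 2 : ℝ) : ℂ) ∈ L := by
    obtain ⟨n, hn⟩ := exists_nat_gt (4 / e)
    obtain ⟨w, hw, h⟩ := s2 n
    have hn0 : (0 : ℝ) ≤ n := by positivity
    have h1 : (n + 1) * ‖w‖ ^ 2 ≤ ‖w‖ := by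
      rw [Complex.sq_norm, Complex.normSq_apply]
      have := (abs_le.1 (Complex.abs_re_le_norm w)).1
      nlinarith
    have hw0 := norm_nonneg w
    have h2 : (n + 1) * ‖w‖ ≤ 1 := by
      by_contra hc
      push Not at hc
      have : 0 < ‖w‖ := by
        rcases hw0.lt_or_eq with h | h
        · exact h
        · rw [← h] at hc; norm_num at hc
      nlinarith
    rw [div_lt_iff₀ he] at hn
    have h3 : ‖w‖ ≤ e / 4 := by nlinarith
    have h4 : ‖w‖ ≤ 1 := by nlinarith
    have h5 : ‖((e / 2 : ℝ) : ℂ) - (w + w ^ 2)‖ ≤ e := by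
      have a1 := norm_sub_le ((e / 2 : ℝ) : ℂ) (w + w ^ 2)
      have a2 := norm_add_le w (w ^ 2)
      rw [Complex.norm_real, Real.norm_eq_abs, abs_of_pos (by positivity)] at a1
      rw [norm_pow] at a2
      nlinarith
    have := hL _ hw _ h5
    convert this using 1
    push_cast
    ring
  have s4 : ∀ n : ℕ, ∃ x : ℝ, n * e ≤ x ∧ (x : ℂ) ∈ L := by
    intro n
    induction n with
    | zero => exact ⟨_, by simp; positivity, s3⟩
    | succ n ih =>
      obtain ⟨x, hx, h⟩ := ih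
      refine ⟨x ^ 2 + 1 / 4 + e, ?_, ?_⟩
      · push_cast
        nlinarith [sq_nonneg (x - 1 / 2)]
      · have := hL _ h e (by rw [Complex.norm_real, Real.norm_eq_abs, abs_of_pos he])
        convert this using 1
        push_cast
        ring
  obtain ⟨n, hn⟩ := exists_nat_gt (B / e)
  obtain ⟨x, hx, h⟩ := s4 n
  have h2 := hB _ h
  rw [Complex.norm_real, Real.norm_eq_abs] at h2
  rw [div_lt_iff₀ he] at hn
  linarith [le_abs_self x]

lemma planar_small (r : ℝ) (hr : r ≤ 1 / 50) :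
    ∃ L, Minimal (Inv c0 r) L ∧ OnePoint.infty ∉ L := by
  have h : Inv c0 r (((↑) : ℂ → OnePoint ℂ) '' closedBall a0 (1 / 5)) := by
    refine ⟨⟨_, a0, by simp, rfl⟩, (isCompact_closedBall _ _).image OnePoint.continuous_coe, ?_⟩
    rintro g ⟨l, -, hl, rfl⟩ _ ⟨_, ⟨z, hz, rfl⟩, rfl⟩
    induction l with
    | nil => exact ⟨z, hz, rfl⟩
    | cons a l ih =>
      obtain ⟨y, hy, hy'⟩ := ih (fun b hb => hl b (List.mem_cons_of_mem _ hb))
      refine ⟨quad a y, ?_, ?_⟩
      · rw [mem_closedBall, dist_eq_norm] at hy ⊢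
        exact disc_inv _ _ hy ((hl a List.mem_cons_self).trans hr)
      · simp only [List.map_cons, List.foldr_cons, Function.comp_apply]
        rw [← hy']
        rfl
  obtain ⟨M, hM, hm⟩ := exists_min h
  exact ⟨M, hm, fun hi => by simpa using hM hi⟩

lemma planar_big (r : ℝ) (hr : 1 / 50 < r) :
    ¬ ∃ L, Minimal (Inv c0 r) L ∧ OnePoint.infty ∉ L := by
  rintro ⟨L, hL, hi⟩
  obtain ⟨⟨p, hp⟩, hc, hinv⟩ := hL.prop
  have hsub : L ⊆ range ((↑) : ℂ → OnePoint ℂ) := by
    intro q hq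
    induction q using OnePoint.rec with
    | infty => exact absurd hq hi
    | coe z => exact ⟨z, rfl⟩
  have hc' : IsCompact (((↑) : ℂ → OnePoint ℂ) ⁻¹' L) :=
    OnePoint.isOpenEmbedding_coe.isInducing.isCompact_preimage' hc hsub
  obtain ⟨B, hB⟩ := hc'.isBounded.exists_norm_le
  obtain ⟨z0, rfl⟩ := hsub hp
  refine no_bounded (r - 1 / 50) B (by linarith) _ ⟨z0, hp⟩ hB fun z hz k hk => ?_
  have hg : quadS (1 / 4 + k) ∈ semi c0 r := by
    refine ⟨[1 / 4 + k], by simp, ?_, by simp⟩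
    intro a ha
    rw [List.mem_singleton.1 ha, show 1 / 4 + k - c0 = (1 / 4 - c0) + k by ring]
    linarith [norm_add_le (1 / 4 - c0) k, quarter]
  have := hinv _ hg ⟨z, hz, rfl⟩
  rw [add_assoc]
  exact this

theorem result : ∃ c : ℂ, c ∉ frontier mandel ∧ c ∉ (fun x : ℝ => (x : ℂ)) '' Icc 0 (1 / 4) ∧
    rbif c = infDist c (frontier mandel) ∧ rbif c = 1 / 50 := by
  have h1 : rbif c0 = 1 / 50 := by
    unfold rbif
    have : {r : ℝ | 0 ≤ r ∧ ¬ ∃ L, Minimal (Inv c0 r) L ∧ OnePoint.infty ∉ L} = Ioi (1 / 50) := by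
      ext r
      constructor
      · rintro ⟨-, h⟩
        by_contra hr
        exact h (planar_small r (not_lt.1 hr))
      · intro hr
        exact ⟨le_trans (by norm_num) (le_of_lt hr), planar_big r hr⟩
    rw [this, csInf_Ioi]
  have h2 : infDist c0 (frontier mandel) = 1 / 50 := by
    apply le_antisymm
    · refine (infDist_le_dist_of_mem quarter_frontier).trans ?_
      rw [dist_comm, dist_eq_norm, quarter]
    · exact (le_infDist ⟨_, quarter_frontier⟩).2 fun y hy => far y hy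
  refine ⟨c0, fun h => ?_, ?_, by rw [h1, h2], h1⟩
  · have := far _ h
    norm_num at this
  · rintro ⟨x, -, hx⟩
    have := congrArg Complex.im hx
    norm_num [c0] at this

end Pool.Agent.Results.MP_77ccbb_an.EqualRadius
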